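import Pool.Agent.W488.IX.Stm

/-! Project IX, part KAP: the truncated power is admissible. -/

set_option autoImplicit false

namespace Pool.Agent.W409.IX.Kap

open MeasureTheory Set Filter Topology
open Pool.Agent.W488.IW Pool.Agent.W488.IX

lemma kp_eq (p R s : ℝ) (hp : 2 < p) (hR : 1 ≤ R) :
    kp p R s = (min (max s 0) R) ^ (p - 2) * (R / max s R) ^ (1 / 10 : ℝ) := by
  unfold kp
  have hR0 : 0 < R := by linarith
  split_ifs with h1 h2
  · rw [max_eq_right h1, min_eq_left hR0.le, Real.zero_rpow (by linarith)]; simp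
  · rw [not_le] at h1
    rw [max_eq_left h1.le, min_eq_left h2, max_eq_right h2, div_self hR0.ne', Real.one_rpow,
      mul_one]
  · rw [not_le] at h1 h2
    rw [max_eq_left h1.le, min_eq_right h2.le, max_eq_left h2.le]

lemma kp_cont (p R : ℝ) (hp : 2 < p) (hR : 1 ≤ R) : Continuous (kp p R) := by
  have hR0 : 0 < R := by linarith
  have e : kp p R = fun s => (min (max s 0) R) ^ (p - 2) * (R / max s R) ^ (1 / 10 : ℝ) :=
    funext fun s => kp_eq p R s hp hR
  rw [e]
  refine Continuous.mul ?_ ?_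
  · exact ((continuous_id.max continuous_const).min continuous_const).rpow_const
      (fun x => Or.inr (by linarith))
  · refine Continuous.rpow_const (Continuous.div continuous_const
      (continuous_id.max continuous_const) ?_) (fun x => Or.inr (by norm_num))
    intro x
    exact (lt_of_lt_of_le hR0 (le_max_right _ _)).ne'

lemma kp_neg (p R s : ℝ) (hs : s ≤ 0) : kp p R s = 0 := by
  unfold kp; rw [if_pos hs]

lemma kp_low (p R s : ℝ) (h0 : 0 < s) (h1 : s ≤ R) : kp p R s = s ^ (p - 2) := by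
  unfold kp; rw [if_neg (not_le.mpr h0), if_pos h1]

lemma kp_high (p R s : ℝ) (hR : 1 ≤ R) (h1 : R ≤ s) :
    kp p R s = R ^ (p - 2) * (R / s) ^ (1 / 10 : ℝ) := by
  have hR0 : 0 < R := by linarith
  rcases eq_or_lt_of_le h1 with h | h
  · subst h
    rw [kp_low p R R hR0 le_rfl, div_self hR0.ne', Real.one_rpow, mul_one]
  · unfold kp; rw [if_neg (not_le.mpr (by linarith)), if_neg (not_le.mpr h)]

lemma kp_nn (p R s : ℝ) (hp : 2 < p) (hR : 1 ≤ R) : 0 ≤ kp p R s := by
  rw [kp_eq p R s hp hR]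
  have hR0 : 0 < R := by linarith
  refine mul_nonneg (Real.rpow_nonneg (le_min (le_max_right _ _) hR0.le) _)
    (Real.rpow_nonneg (div_nonneg hR0.le (le_trans hR0.le (le_max_right _ _))) _)

lemma kp_le (p R s : ℝ) (hp : 2 < p) (hR : 1 ≤ R) : kp p R s ≤ R ^ (p - 2) := by
  rw [kp_eq p R s hp hR]
  have hR0 : 0 < R := by linarith
  have hm : 0 < max s R := lt_of_lt_of_le hR0 (le_max_right _ _)
  have h1 : (min (max s 0) R) ^ (p - 2) ≤ R ^ (p - 2) :=
    Real.rpow_le_rpow (le_min (le_max_right _ _) hR0.le) (min_le_right _ _) (by linarith)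
  have h2 : (R / max s R) ^ (1 / 10 : ℝ) ≤ 1 := by
    refine Real.rpow_le_one (div_nonneg hR0.le hm.le) ?_ (by norm_num)
    rw [div_le_one hm]
    exact le_max_right _ _
  calc _ ≤ R ^ (p - 2) * 1 := mul_le_mul h1 h2
        (Real.rpow_nonneg (div_nonneg hR0.le hm.le) _) (Real.rpow_nonneg hR0.le _)
    _ = _ := mul_one _

lemma kp_up (p R s : ℝ) (hp : 2 < p) (hR : 1 ≤ R) (hs : 0 ≤ s) : kp p R s ≤ s ^ (p - 2) := by
  have hR0 : 0 < R := by linarith
  rcases eq_or_lt_of_le hs with h | h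
  · rw [kp_neg p R s (by linarith)]
    exact Real.rpow_nonneg hs _
  · rcases le_total s R with h1 | h1
    · rw [kp_low p R s h h1]
    · refine le_trans (kp_le p R s hp hR) ?_
      exact Real.rpow_le_rpow hR0.le h1 (by linarith)

/-- elasticity, upper -/
lemma el_up (p R r s : ℝ) (hp : 2 < p) (hR : 1 ≤ R) (hr : 0 < r) (hrs : r ≤ s) :
    kp p R s ≤ kp p R r * (s / r) ^ (p - 2) := by
  have hR0 : 0 < R := by linarith
  have hs : 0 < s := by linarith
  rw [kp_eq p R s hp hR, kp_eq p R r hp hR, max_eq_left hs.le, max_eq_left hr.le]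
  have hms : 0 < max s R := lt_of_lt_of_le hR0 (le_max_right _ _)
  have hmr : 0 < max r R := lt_of_lt_of_le hR0 (le_max_right _ _)
  have hq : 1 ≤ s / r := by rw [le_div_iff₀ hr]; linarith
  have h1 : min s R ≤ min r R * (s / r) := by
    rcases le_total r R with h | h
    · rw [min_eq_left h]
      have : r * (s / r) = s := by field_simp
      rw [this]
      exact min_le_left _ _
    · rw [min_eq_right h]
      calc min s R ≤ R := min_le_right _ _
        _ = R * 1 := (mul_one _).symm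
        _ ≤ R * (s / r) := mul_le_mul_of_nonneg_left hq hR0.le
  have h2 : R / max s R ≤ R / max r R :=
    div_le_div_of_nonneg_left hR0.le hmr (max_le_max hrs le_rfl)
  have h3 : (min s R) ^ (p - 2) ≤ (min r R) ^ (p - 2) * (s / r) ^ (p - 2) := by
    rw [← Real.mul_rpow (le_min hr.le hR0.le) (by positivity)]
    exact Real.rpow_le_rpow (le_min hs.le hR0.le) h1 (by linarith)
  have h4 : (R / max s R) ^ (1 / 10 : ℝ) ≤ (R / max r R) ^ (1 / 10 : ℝ) :=
    Real.rpow_le_rpow (by positivity) h2 (by norm_num)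
  calc _ ≤ ((min r R) ^ (p - 2) * (s / r) ^ (p - 2)) * (R / max r R) ^ (1 / 10 : ℝ) :=
        mul_le_mul h3 h4 (Real.rpow_nonneg (by positivity) _)
          (mul_nonneg (Real.rpow_nonneg (le_min hr.le hR0.le) _)
            (Real.rpow_nonneg (by positivity) _))
    _ = _ := by ring

/-- elasticity, lower -/
lemma el_lo (p R r s : ℝ) (hp : 2 < p) (hR : 1 ≤ R) (hr : 0 < r) (hrs : r ≤ s) :
    kp p R r ≤ kp p R s * (s / r) ^ (1 / 10 : ℝ) := by
  have hR0 : 0 < R := by linarith
  have hs : 0 < s := by linarith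
  rw [kp_eq p R s hp hR, kp_eq p R r hp hR, max_eq_left hs.le, max_eq_left hr.le]
  have hms : 0 < max s R := lt_of_lt_of_le hR0 (le_max_right _ _)
  have hmr : 0 < max r R := lt_of_lt_of_le hR0 (le_max_right _ _)
  have hq : 1 ≤ s / r := by rw [le_div_iff₀ hr]; linarith
  have h1 : min r R ≤ min s R := min_le_min hrs le_rfl
  have h2 : R / max r R ≤ (R / max s R) * (s / r) := by
    have hm : max s R ≤ max r R * (s / r) := by
      refine max_le ?_ ?_
      · calc s = r * (s / r) := by field_simp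
          _ ≤ max r R * (s / r) := mul_le_mul_of_nonneg_right (le_max_left _ _) (by positivity)
      · calc R = R * 1 := (mul_one _).symm
          _ ≤ max r R * (s / r) := mul_le_mul (le_max_right _ _) hq zero_le_one hmr.le
    rw [div_mul_eq_mul_div, div_le_div_iff₀ hmr hms]
    nlinarith [mul_le_mul_of_nonneg_left hm hR0.le]
  have h3 : (min r R) ^ (p - 2) ≤ (min s R) ^ (p - 2) :=
    Real.rpow_le_rpow (le_min hr.le hR0.le) h1 (by linarith)
  have h4 : (R / max r R) ^ (1 / 10 : ℝ) ≤ (R / max s R) ^ (1 / 10 : ℝ) * (s / r) ^ (1 / 10 : ℝ) := by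
    rw [← Real.mul_rpow (by positivity) (by positivity)]
    exact Real.rpow_le_rpow (by positivity) h2 (by norm_num)
  calc _ ≤ (min s R) ^ (p - 2) * ((R / max s R) ^ (1 / 10 : ℝ) * (s / r) ^ (1 / 10 : ℝ)) :=
        mul_le_mul h3 h4 (Real.rpow_nonneg (by positivity) _)
          (Real.rpow_nonneg (le_min hs.le hR0.le) _)
    _ = _ := by ring

section

variable (p R : ℝ) (hp : 2 < p) (hR : 1 ≤ R)

include hp hR

lemma ii0 (t : ℝ) (ht : 0 ≤ t) : IntervalIntegrable (fun s => kp p R s / s) volume 0 t := by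
  have hg : IntervalIntegrable (fun s : ℝ => s ^ (p - 3)) volume 0 t :=
    intervalIntegral.intervalIntegrable_rpow' (by linarith)
  refine hg.mono_fun' ?_ ?_
  · exact ((kp_cont p R hp hR).measurable.div measurable_id).aestronglyMeasurable
  · refine (ae_restrict_iff' measurableSet_uIoc).mpr (Eventually.of_forall fun s hs => ?_)
    rw [uIoc_of_le ht] at hs
    have hs0 : 0 < s := hs.1
    dsimp only
    rw [Real.norm_eq_abs, abs_of_nonneg (div_nonneg (kp_nn p R s hp hR) hs0.le),
      div_le_iff₀ hs0]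
    have e : s ^ (p - 3) * s = s ^ (p - 2) := by
      rw [show p - 2 = (p - 3) + 1 by ring, Real.rpow_add_one hs0.ne']
    rw [e]
    exact kp_up p R s hp hR hs0.le

lemma ii (a b : ℝ) (ha : 0 ≤ a) (hb : 0 ≤ b) :
    IntervalIntegrable (fun s => kp p R s / s) volume a b :=
  (ii0 p R hp hR a ha).symm.trans (ii0 p R hp hR b hb)

lemma hsub (a b : ℝ) (ha : 0 ≤ a) (hb : 0 ≤ b) :
    hh1 (kp p R) b - hh1 (kp p R) a = ∫ s in a..b, kp p R s / s := by
  unfold hh1
  rw [intervalIntegral.integral_interval_sub_left (ii0 p R hp hR b hb) (ii0 p R hp hR a ha)]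

lemma hmono (a b : ℝ) (ha : 0 ≤ a) (hb : a ≤ b) : hh1 (kp p R) a ≤ hh1 (kp p R) b := by
  have h := hsub p R hp hR a b ha (by linarith)
  have h2 : 0 ≤ ∫ s in a..b, kp p R s / s := by
    refine intervalIntegral.integral_nonneg hb fun s hs => ?_
    exact div_nonneg (kp_nn p R s hp hR) (by linarith [hs.1])
  linarith

lemma h_low (a b : ℝ) (ha : 0 ≤ a) (hab : a ≤ b) (hb : b ≤ R) :
    hh1 (kp p R) b - hh1 (kp p R) a = (b ^ (p - 2) - a ^ (p - 2)) / (p - 2) := by
  rw [hsub p R hp hR a b ha (by linarith)]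
  have e : ∫ s in a..b, kp p R s / s = ∫ s in a..b, s ^ (p - 3) := by
    refine intervalIntegral.integral_congr_ae (Eventually.of_forall fun s hs => ?_)
    rw [uIoc_of_le hab] at hs
    have hs0 : 0 < s := by linarith [hs.1]
    rw [kp_low p R s hs0 (by linarith [hs.2]), div_eq_iff hs0.ne',
      show p - 2 = (p - 3) + 1 by ring, Real.rpow_add_one hs0.ne']
  rw [e, integral_rpow (Or.inl (by linarith)), show p - 3 + 1 = p - 2 by ring]

lemma h_high (b : ℝ) (hb : R ≤ b) :
    hh1 (kp p R) b - hh1 (kp p R) R ≤ 10 * R ^ (p - 2) := by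
  have hR0 : 0 < R := by linarith
  have hb0 : 0 < b := by linarith
  rw [hsub p R hp hR R b hR0.le hb0.le]
  have e : ∫ s in R..b, kp p R s / s
      = ∫ s in R..b, (R ^ (p - 2) * R ^ (1 / 10 : ℝ)) * s ^ (-11 / 10 : ℝ) := by
    refine intervalIntegral.integral_congr_ae (Eventually.of_forall fun s hs => ?_)
    rw [uIoc_of_le hb] at hs
    have hs0 : 0 < s := by linarith [hs.1]
    rw [kp_high p R s hR hs.1.le, Real.div_rpow hR0.le hs0.le,
      show (-11 / 10 : ℝ) = -(1 / 10) + -1 by norm_num, Real.rpow_add hs0, Real.rpow_neg hs0.le,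
      Real.rpow_neg_one]
    field_simp
  rw [e, intervalIntegral.integral_const_mul, integral_rpow (Or.inr ⟨by norm_num, ?_⟩)]
  · rw [show (-11 / 10 : ℝ) + 1 = -(1 / 10) by norm_num, Real.rpow_neg hb0.le,
      Real.rpow_neg hR0.le]
    have h1 : 0 < R ^ (1 / 10 : ℝ) := Real.rpow_pos_of_pos hR0 _
    have h2 : 0 < b ^ (1 / 10 : ℝ) := Real.rpow_pos_of_pos hb0 _
    have h3 : 0 < R ^ (p - 2) := Real.rpow_pos_of_pos hR0 _
    have h4 : R ^ (p - 2) * R ^ (1 / 10 : ℝ) * (((b ^ (1 / 10 : ℝ))⁻¹ - (R ^ (1 / 10 : ℝ))⁻¹)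
        / -(1 / 10)) = 10 * R ^ (p - 2) - 10 * R ^ (p - 2) * (R ^ (1 / 10 : ℝ) / b ^ (1 / 10 : ℝ)) := by
      field_simp
      ring
    rw [h4]
    have : 0 ≤ 10 * R ^ (p - 2) * (R ^ (1 / 10 : ℝ) / b ^ (1 / 10 : ℝ)) := by positivity
    linarith
  · rw [uIcc_of_le hb]
    intro h
    linarith [h.1]

omit hp hR in
lemma h_zero : hh1 (kp p R) 0 = 0 := by unfold hh1; simp

lemma tail (s : ℝ) (hs : 0 ≤ s) : hh1 (kp p R) s ≤ R ^ (p - 2) * (1 / (p - 2) + 10) := by
  have hR0 : 0 < R := by linarith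
  have hθ : 0 < p - 2 := by linarith
  have key : ∀ t, 0 ≤ t → t ≤ R → hh1 (kp p R) t ≤ R ^ (p - 2) * (1 / (p - 2)) := by
    intro t ht htR
    have h := h_low p R hp hR 0 t le_rfl ht htR
    rw [h_zero p R, Real.zero_rpow hθ.ne', sub_zero, sub_zero] at h
    rw [h, mul_one_div]
    exact div_le_div_of_nonneg_right (Real.rpow_le_rpow ht htR hθ.le) hθ.le
  have hp3 : 0 < R ^ (p - 2) := Real.rpow_pos_of_pos hR0 _
  rcases le_total s R with h | h
  · have := key s hs h
    nlinarith
  · have h1 := key R hR0.le le_rfl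
    have h2 := h_high p R hp hR s h
    nlinarith

lemma e2' (hp2 : p ≤ 11 / 5) (a b : ℝ) (ha : 0 < a) (hab : a ≤ b) :
    kp p R b - kp p R a ≤ (hh1 (kp p R) b - hh1 (kp p R) a) / 5 := by
  have hR0 : 0 < R := by linarith
  have hθ : 0 < p - 2 := by linarith
  have low : ∀ a b, 0 < a → a ≤ b → b ≤ R →
      kp p R b - kp p R a ≤ (hh1 (kp p R) b - hh1 (kp p R) a) / 5 := by
    intro a b ha hab hb
    rw [h_low p R hp hR a b ha.le hab hb, kp_low p R b (by linarith) hb,
      kp_low p R a ha (by linarith)]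
    have h0 : 0 ≤ b ^ (p - 2) - a ^ (p - 2) :=
      sub_nonneg.mpr (Real.rpow_le_rpow ha.le hab hθ.le)
    rw [div_div, le_div_iff₀ (by linarith)]
    nlinarith
  have high : ∀ a b, R ≤ a → a ≤ b →
      kp p R b - kp p R a ≤ (hh1 (kp p R) b - hh1 (kp p R) a) / 5 := by
    intro a b ha hab
    have h1 := hmono p R hp hR a b (by linarith) hab
    have h2 : kp p R b ≤ kp p R a := by
      rw [kp_high p R b hR (by linarith), kp_high p R a hR ha]
      refine mul_le_mul_of_nonneg_left ?_ (Real.rpow_nonneg hR0.le _)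
      have ha0 : 0 < a := by linarith
      have hb0 : 0 < b := by linarith
      exact Real.rpow_le_rpow (by positivity) (div_le_div_of_nonneg_left hR0.le ha0 hab)
        (by norm_num)
    linarith
  rcases le_total b R with h | h
  · exact low a b ha hab h
  · rcases le_total a R with h' | h'
    · have h1 := low a R ha h' le_rfl
      have h2 := high R b le_rfl h
      linarith
    · exact high a b h' hab

lemma e1' (a b : ℝ) (ha : 0 < a) (hab : a ≤ b) :
    a * (hh1 (kp p R) b - hh1 (kp p R) a) ≤ (b - a) * kp p R b := by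
  have hb : 0 < b := by linarith
  rw [hsub p R hp hR a b ha.le hb.le]
  have hnn := kp_nn p R b hp hR
  have h0 : (0 : ℝ) ∉ uIcc a b := by
    rw [uIcc_of_le hab]; intro h; linarith [h.1]
  have h1 : ∫ s in a..b, kp p R s / s
      ≤ ∫ s in a..b, (kp p R b * b ^ (1 / 10 : ℝ)) * s ^ (-11 / 10 : ℝ) := by
    refine intervalIntegral.integral_mono_on hab (ii p R hp hR a b ha.le hb.le) ?_ ?_
    · exact (intervalIntegral.intervalIntegrable_rpow (Or.inr h0)).const_mul _
    · intro s hs
      have hs0 : 0 < s := by linarith [hs.1]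
      have h := el_lo p R s b hp hR hs0 hs.2
      rw [Real.div_rpow hb.le hs0.le] at h
      rw [div_le_iff₀ hs0]
      have h2 : s ^ (-11 / 10 : ℝ) * s = (s ^ (1 / 10 : ℝ))⁻¹ := by
        rw [← Real.rpow_neg hs0.le, ← Real.rpow_add_one hs0.ne']
        norm_num
      calc kp p R s ≤ kp p R b * (b ^ (1 / 10 : ℝ) / s ^ (1 / 10 : ℝ)) := h
        _ = kp p R b * b ^ (1 / 10 : ℝ) * (s ^ (-11 / 10 : ℝ) * s) := by
            rw [h2]; ring
        _ = _ := by ring
  rw [intervalIntegral.integral_const_mul, integral_rpow (Or.inr ⟨by norm_num, h0⟩),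
    show (-11 / 10 : ℝ) + 1 = -(1 / 10) by norm_num, Real.rpow_neg hb.le,
      Real.rpow_neg ha.le] at h1
  have p1 : 0 < a ^ (1 / 10 : ℝ) := Real.rpow_pos_of_pos ha _
  have p2 : 0 < b ^ (1 / 10 : ℝ) := Real.rpow_pos_of_pos hb _
  have h2 : kp p R b * b ^ (1 / 10 : ℝ) * (((b ^ (1 / 10 : ℝ))⁻¹ - (a ^ (1 / 10 : ℝ))⁻¹)
      / -(1 / 10)) = kp p R b * (10 * ((b / a) ^ (1 / 10 : ℝ) - 1)) := by
    rw [Real.div_rpow hb.le ha.le]
    field_simp
    ring
  rw [h2] at h1
  have hB : (b / a) ^ (1 / 10 : ℝ) ≤ 1 + 1 / 10 * (b / a - 1) := by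
    have := _root_.rpow_one_add_le_one_add_mul_self (s := b / a - 1) (p := 1 / 10)
      (by have : 0 < b / a := by positivity
          linarith) (by norm_num) (by norm_num)
    rwa [show 1 + (b / a - 1) = b / a by ring] at this
  calc a * ∫ s in a..b, kp p R s / s ≤ a * (kp p R b * (10 * ((b / a) ^ (1 / 10 : ℝ) - 1))) :=
        mul_le_mul_of_nonneg_left h1 ha.le
    _ ≤ a * (kp p R b * (10 * (1 / 10 * (b / a - 1)))) := by
        refine mul_le_mul_of_nonneg_left (mul_le_mul_of_nonneg_left ?_ hnn) ha.le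
        linarith
    _ = (b - a) * kp p R b := by field_simp

lemma om_lo (hp2 : p ≤ 11 / 5) (s : ℝ) (hs : 0 < s) :
    5 / 6 * kp p R s * s ≤ om1 (kp p R) s := by
  unfold om1
  have hθ : 0 < p - 2 := by linarith
  have hnn := kp_nn p R s hp hR
  have h1 : ∫ r in (0 : ℝ)..s, (kp p R s * (s ^ (p - 2))⁻¹) * r ^ (p - 2)
      ≤ ∫ r in (0 : ℝ)..s, kp p R r := by
    refine intervalIntegral.integral_mono_on hs.le ?_ ?_ ?_
    · exact (intervalIntegral.intervalIntegrable_rpow' (by linarith)).const_mul _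
    · exact (kp_cont p R hp hR).intervalIntegrable _ _
    · intro r hr
      rcases eq_or_lt_of_le hr.1 with h | h
      · rw [← h, Real.zero_rpow hθ.ne', mul_zero]
        exact kp_nn p R 0 hp hR
      · have h2 := el_up p R r s hp hR h hr.2
        rw [Real.div_rpow hs.le h.le] at h2
        have p1 : 0 < s ^ (p - 2) := Real.rpow_pos_of_pos hs _
        have p2 : 0 < r ^ (p - 2) := Real.rpow_pos_of_pos h _
        rw [← mul_div_assoc, le_div_iff₀ p2] at h2
        calc kp p R s * (s ^ (p - 2))⁻¹ * r ^ (p - 2)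
            = (kp p R s * r ^ (p - 2)) * (s ^ (p - 2))⁻¹ := by ring
          _ ≤ (kp p R r * s ^ (p - 2)) * (s ^ (p - 2))⁻¹ :=
              mul_le_mul_of_nonneg_right h2 (inv_nonneg.mpr p1.le)
          _ = kp p R r := by field_simp
  rw [intervalIntegral.integral_const_mul, integral_rpow (Or.inl (by linarith)),
    Real.zero_rpow (by linarith), sub_zero, Real.rpow_add_one hs.ne'] at h1
  refine le_trans ?_ h1
  have p1 : 0 < s ^ (p - 2) := Real.rpow_pos_of_pos hs _
  have e : kp p R s * (s ^ (p - 2))⁻¹ * (s ^ (p - 2) * s / (p - 2 + 1))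
      = kp p R s * s / (p - 2 + 1) := by
    field_simp
  rw [e, le_div_iff₀ (by linarith)]
  have : 0 ≤ kp p R s * s := mul_nonneg hnn hs.le
  nlinarith

lemma om_up (s : ℝ) (hs : 0 < s) : om1 (kp p R) s ≤ 10 / 9 * kp p R s * s := by
  unfold om1
  have hθ : 0 < p - 2 := by linarith
  have hnn := kp_nn p R s hp hR
  have h1 : ∫ r in (0 : ℝ)..s, kp p R r
      ≤ ∫ r in (0 : ℝ)..s, (kp p R s * s ^ (1 / 10 : ℝ)) * r ^ (-1 / 10 : ℝ) := by
    refine intervalIntegral.integral_mono_on hs.le ?_ ?_ ?_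
    · exact (kp_cont p R hp hR).intervalIntegrable _ _
    · exact (intervalIntegral.intervalIntegrable_rpow' (by norm_num)).const_mul _
    · intro r hr
      rcases eq_or_lt_of_le hr.1 with h | h
      · rw [← h, Real.zero_rpow (by norm_num), mul_zero, kp_neg p R 0 le_rfl]
      · have h2 := el_lo p R r s hp hR h hr.2
        rw [Real.div_rpow hs.le h.le] at h2
        rw [show (-1 / 10 : ℝ) = -(1 / 10) by norm_num, Real.rpow_neg h.le]
        calc kp p R r ≤ kp p R s * (s ^ (1 / 10 : ℝ) / r ^ (1 / 10 : ℝ)) := h2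
          _ = _ := by ring
  rw [intervalIntegral.integral_const_mul, integral_rpow (Or.inl (by norm_num)),
    Real.zero_rpow (by norm_num), sub_zero] at h1
  refine le_trans h1 (le_of_eq ?_)
  have e : s ^ (1 / 10 : ℝ) * s ^ (-1 / 10 + 1 : ℝ) = s := by
    rw [← Real.rpow_add hs]; norm_num
  calc kp p R s * s ^ (1 / 10 : ℝ) * (s ^ (-1 / 10 + 1 : ℝ) / (-1 / 10 + 1))
      = kp p R s * (s ^ (1 / 10 : ℝ) * s ^ (-1 / 10 + 1 : ℝ)) / (9 / 10) := by
        rw [show (-1 / 10 + 1 : ℝ) = 9 / 10 by norm_num]; ring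
    _ = _ := by rw [e]; ring

lemma dH (s : ℝ) (hs : 0 < s) : HasDerivAt (hh1 (kp p R)) (kp p R s / s) s := by
  have hc : ContinuousAt (fun s => kp p R s / s) s :=
    (kp_cont p R hp hR).continuousAt.div continuousAt_id hs.ne'
  have := intervalIntegral.integral_hasDerivAt_right (ii0 p R hp hR s hs.le)
    (((kp_cont p R hp hR).measurable.div measurable_id).stronglyMeasurable.stronglyMeasurableAtFilter)
    hc
  exact this

lemma dO (s : ℝ) (hs : 0 < s) :
    HasDerivAt (fun s => om1 (kp p R) s / s) ((kp p R s - om1 (kp p R) s / s) / s) s := by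
  have hc := kp_cont p R hp hR
  have h1 : HasDerivAt (om1 (kp p R)) (kp p R s) s := by
    have := intervalIntegral.integral_hasDerivAt_right (hc.intervalIntegrable 0 s)
      (hc.stronglyMeasurable.stronglyMeasurableAtFilter) hc.continuousAt
    exact this
  have h2 := h1.div (hasDerivAt_id s) hs.ne'
  refine h2.congr_deriv ?_
  simp only [id]
  field_simp

lemma e34 (hp2 : p ≤ 11 / 5) (a b : ℝ) (ha : 0 < a) (hab : a ≤ b) :
    -((hh1 (kp p R) b - hh1 (kp p R) a) / 9)
      ≤ om1 (kp p R) b / b - om1 (kp p R) a / a ∧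
    om1 (kp p R) b / b - om1 (kp p R) a / a ≤ (hh1 (kp p R) b - hh1 (kp p R) a) / 6 := by
  have hb : 0 < b := by linarith
  have m1 : MonotoneOn (fun s => om1 (kp p R) s / s + 1 / 9 * hh1 (kp p R) s) (Ioi 0) := by
    have hd : ∀ s ∈ Ioi (0 : ℝ), HasDerivAt
        (fun s => om1 (kp p R) s / s + 1 / 9 * hh1 (kp p R) s)
        ((kp p R s - om1 (kp p R) s / s) / s + 1 / 9 * (kp p R s / s)) s := by
      intro s hs
      exact (dO p R hp hR s hs).add ((dH p R hp hR s hs).const_mul (1 / 9))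
    refine monotoneOn_of_deriv_nonneg (convex_Ioi 0)
      (fun s hs => (hd s hs).continuousAt.continuousWithinAt) ?_ ?_
    · rw [interior_Ioi]
      exact fun s hs => (hd s hs).differentiableAt.differentiableWithinAt
    · rw [interior_Ioi]
      intro s hs
      rw [(hd s hs).deriv]
      have hs0 : 0 < s := hs
      have h1 := om_up p R hp hR s hs0
      have h2 : om1 (kp p R) s / s ≤ 10 / 9 * kp p R s := by
        rw [div_le_iff₀ hs0]; exact h1
      have h3 : (kp p R s - om1 (kp p R) s / s) / s + 1 / 9 * (kp p R s / s)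
          = (10 / 9 * kp p R s - om1 (kp p R) s / s) / s := by ring
      rw [h3]
      exact div_nonneg (by linarith) hs0.le
  have m2 : MonotoneOn (fun s => 1 / 6 * hh1 (kp p R) s - om1 (kp p R) s / s) (Ioi 0) := by
    have hd : ∀ s ∈ Ioi (0 : ℝ), HasDerivAt
        (fun s => 1 / 6 * hh1 (kp p R) s - om1 (kp p R) s / s)
        (1 / 6 * (kp p R s / s) - (kp p R s - om1 (kp p R) s / s) / s) s := by
      intro s hs
      exact ((dH p R hp hR s hs).const_mul (1 / 6)).sub (dO p R hp hR s hs)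
    refine monotoneOn_of_deriv_nonneg (convex_Ioi 0)
      (fun s hs => (hd s hs).continuousAt.continuousWithinAt) ?_ ?_
    · rw [interior_Ioi]
      exact fun s hs => (hd s hs).differentiableAt.differentiableWithinAt
    · rw [interior_Ioi]
      intro s hs
      rw [(hd s hs).deriv]
      have hs0 : 0 < s := hs
      have h1 := om_lo p R hp hR hp2 s hs0
      have h2 : 5 / 6 * kp p R s ≤ om1 (kp p R) s / s := by
        rw [le_div_iff₀ hs0]; exact h1
      have h3 : 1 / 6 * (kp p R s / s) - (kp p R s - om1 (kp p R) s / s) / s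
          = (om1 (kp p R) s / s - 5 / 6 * kp p R s) / s := by ring
      rw [h3]
      exact div_nonneg (by linarith) hs0.le
  have h1 := m1 (mem_Ioi.mpr ha) (mem_Ioi.mpr hb) hab
  have h2 := m2 (mem_Ioi.mpr ha) (mem_Ioi.mpr hb) hab
  dsimp only at h1 h2
  constructor <;> linarith

end

theorem main : S_KAP := by
  intro p R hp hp2 hR
  have hR0 : 0 < R := by linarith
  have hθ : 0 < p - 2 := by linarith
  have hRp : 1 ≤ R ^ (p - 2) := Real.one_le_rpow hR hθ.le
  have hθi : 0 < 1 / (p - 2) := by positivity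
  have hC : R ^ (p - 2) * (1 / (p - 2) + 10) + 1 ≥ R ^ (p - 2) + 1 := by nlinarith
  refine ⟨p - 2, R ^ (p - 2) * (1 / (p - 2) + 10) + 1, ?_⟩
  refine ⟨hθ, by linarith, by linarith, kp_cont p R hp hR, fun s hs => kp_neg p R s hs,
    fun s => kp_nn p R s hp hR, ?_, ?_, ?_, ?_, ?_, ?_, ?_⟩
  · intro s hs
    have h1 := kp_up p R s hp hR hs
    have h2 : 0 ≤ s ^ (p - 2) := Real.rpow_nonneg hs _
    nlinarith
  · intro s
    have := kp_le p R s hp hR
    linarith
  · intro s hs
    have := tail p R hp hR s hs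
    linarith
  · intro x y hy hyx
    have := e1' p R hp hR (2 * y) (2 * x) (by linarith) (by linarith)
    linarith
  · intro x y hy hyx
    exact e2' p R hp hR hp2 (2 * y) (2 * x) (by linarith) (by linarith)
  · intro x y hy hyx
    exact (e34 p R hp hR hp2 (2 * y) (2 * x) (by linarith) (by linarith)).1
  · intro x y hy hyx
    exact (e34 p R hp hR hp2 (2 * y) (2 * x) (by linarith) (by linarith)).2

end Pool.Agent.W409.IX.Kap
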